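import Pool.Agent.Lib.APCheck.Basic

set_option autoImplicit false

namespace Pool.Agent.MP_343cc6_co

open Pool.Agent.Lib.APCheck

/-- a strong starter in `ZMod g` with uncovered point `c`, given by integer representatives -/
structure Good (g : ℕ) (c : ℤ) (L : List (ℤ × ℤ)) : Prop where
  len : 2 * L.length + 1 = g
  el : Inc g (c :: (L.map (fun p => p.1) ++ L.map (fun p => p.2)))
  df : Inc g (L.map (fun p => p.1 - p.2) ++ L.map (fun p => p.2 - p.1))
  sm : Inc g ((c + c) :: L.map (fun p => p.1 + p.2))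

/-- the existence clause of the statement -/
def Perfect (g : ℕ) : Prop :=
  ∃ (M : SimpleGraph (ZMod g)) (c : ZMod g),
    (∀ w, ¬ M.Adj c w) ∧
    (∀ v, v ≠ c → ∃! w, M.Adj v w) ∧
    (∀ a b x y, M.Adj a b → M.Adj x y →
      min (a - b).val (b - a).val = min (x - y).val (y - x).val →
      (a = x ∧ b = y) ∨ (a = y ∧ b = x)) ∧
    (∀ a b x y, M.Adj a b → M.Adj x y →
      min (a - x).val (x - a).val = min (b - y).val (y - b).val →
      (a = x ∧ b = y) ∨ (a = y ∧ b = x)) ∧
    (∀ a b, M.Adj a b →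
      min (a - c).val (c - a).val ≠ min (b - c).val (c - b).val)

theorem min_val {g : ℕ} [NeZero g] {a b x y : ZMod g}
    (h : min (a - b).val (b - a).val = min (x - y).val (y - x).val) :
    a - b = x - y ∨ a - b = y - x := by
  have inj := ZMod.val_injective g
  rcases min_choice (a - b).val (b - a).val with h1 | h1 <;>
  rcases min_choice (x - y).val (y - x).val with h2 | h2 <;>
  rw [h1, h2] at h
  · exact Or.inl (inj h)
  · exact Or.inr (inj h)
  · right; have := inj h; linear_combination -this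
  · left; have := inj h; linear_combination -this

theorem perfect_of_list {g : ℕ} [NeZero g] (c : ZMod g) (L : List (ZMod g × ZMod g))
    (len : 2 * L.length + 1 = g)
    (el : (c :: (L.map (fun p => p.1) ++ L.map (fun p => p.2))).Nodup)
    (df : (L.map (fun p => p.1 - p.2) ++ L.map (fun p => p.2 - p.1)).Nodup)
    (sm : ((c + c) :: L.map (fun p => p.1 + p.2)).Nodup) : Perfect g := by
  have cover : ∀ v : ZMod g, v ∈ c :: (L.map (fun p => p.1) ++ L.map (fun p => p.2)) := by
    intro v
    have hc := List.toFinset_card_of_nodup el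
    have : (c :: (L.map (fun p => p.1) ++ L.map (fun p => p.2))).toFinset = Finset.univ := by
      apply Finset.eq_univ_of_card
      rw [hc, ZMod.card]
      simp; omega
    rw [← List.mem_toFinset, this]
    exact Finset.mem_univ v
  rw [List.nodup_cons, List.nodup_append] at el
  rw [List.nodup_append] at df
  rw [List.nodup_cons] at sm
  obtain ⟨e0, e1, e2, e3⟩ := el
  obtain ⟨d1, -, d3⟩ := df
  obtain ⟨s0, s1⟩ := sm
  have E1 : ∀ p ∈ L, c ≠ p.1 := fun p hp h =>
    e0 (List.mem_append_left _ (List.mem_map.mpr ⟨p, hp, h.symm⟩))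
  have E2 : ∀ p ∈ L, c ≠ p.2 := fun p hp h =>
    e0 (List.mem_append_right _ (List.mem_map.mpr ⟨p, hp, h.symm⟩))
  have E3 : ∀ p ∈ L, ∀ q ∈ L, p.1 ≠ q.2 := fun p hp q hq =>
    e3 _ (List.mem_map.mpr ⟨p, hp, rfl⟩) _ (List.mem_map.mpr ⟨q, hq, rfl⟩)
  have E4 : ∀ p ∈ L, ∀ q ∈ L, p.1 = q.1 → p = q := fun p hp q hq h =>
    List.inj_on_of_nodup_map e1 hp hq h
  have E5 : ∀ p ∈ L, ∀ q ∈ L, p.2 = q.2 → p = q := fun p hp q hq h =>
    List.inj_on_of_nodup_map e2 hp hq h
  have D1 : ∀ p ∈ L, ∀ q ∈ L, p.1 - p.2 = q.1 - q.2 → p = q := fun p hp q hq h =>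
    List.inj_on_of_nodup_map d1 hp hq h
  have D2 : ∀ p ∈ L, ∀ q ∈ L, p.1 - p.2 ≠ q.2 - q.1 := fun p hp q hq =>
    d3 _ (List.mem_map.mpr ⟨p, hp, rfl⟩) _ (List.mem_map.mpr ⟨q, hq, rfl⟩)
  have S0 : ∀ p ∈ L, c + c ≠ p.1 + p.2 := fun p hp h =>
    s0 (List.mem_map.mpr ⟨p, hp, h.symm⟩)
  have S1 : ∀ p ∈ L, ∀ q ∈ L, p.1 + p.2 = q.1 + q.2 → p = q := fun p hp q hq h =>
    List.inj_on_of_nodup_map s1 hp hq h
  let M : SimpleGraph (ZMod g) :=
    { Adj := fun a b => (a, b) ∈ L ∨ (b, a) ∈ L
      symm := ⟨fun a b h => h.symm⟩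
      loopless := ⟨fun a h => by
        rcases h with h | h <;> exact E3 _ h _ h rfl⟩ }
  have hd : ∀ a b x y, M.Adj a b → M.Adj x y → a - b = x - y → a = x ∧ b = y := by
    intro a b x y h1 h2 h
    rcases h1 with h1 | h1 <;> rcases h2 with h2 | h2
    · simpa using D1 _ h1 _ h2 h
    · exact absurd h (D2 _ h1 _ h2)
    · exact absurd h.symm (D2 _ h2 _ h1)
    · have := D1 _ h1 _ h2 (by simp only; linear_combination -h)
      simp only [Prod.mk.injEq] at this
      exact this.symm
  have hs : ∀ a b x y, M.Adj a b → M.Adj x y → a + b = x + y →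
      (a = x ∧ b = y) ∨ (a = y ∧ b = x) := by
    intro a b x y h1 h2 h
    rcases h1 with h1 | h1 <;> rcases h2 with h2 | h2
    · left; simpa using S1 _ h1 _ h2 h
    · right; simpa using S1 _ h1 _ h2 (by simp only; linear_combination h)
    · right
      have := S1 _ h1 _ h2 (by simp only; linear_combination h)
      simp only [Prod.mk.injEq] at this
      exact this.symm
    · left
      have := S1 _ h1 _ h2 (by simp only; linear_combination h)
      simp only [Prod.mk.injEq] at this
      exact this.symm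
  refine ⟨M, c, ?_, ?_, ?_, ?_, ?_⟩
  · intro w h
    rcases h with h | h
    · exact E1 _ h rfl
    · exact E2 _ h rfl
  · intro v hv
    have hc := cover v
    simp only [List.mem_cons, List.mem_append, List.mem_map] at hc
    rcases hc with hc | ⟨p, hp, rfl⟩ | ⟨p, hp, rfl⟩
    · exact absurd hc hv
    · refine ⟨p.2, Or.inl hp, ?_⟩
      intro w hw
      rcases hw with hw | hw
      · have := E4 _ hw _ hp rfl
        rw [← this]
      · exact absurd rfl (E3 _ hp _ hw)
    · refine ⟨p.1, Or.inr hp, ?_⟩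
      intro w hw
      rcases hw with hw | hw
      · exact absurd rfl (E3 _ hw _ hp)
      · have := E5 _ hw _ hp rfl
        rw [← this]
  · intro a b x y h1 h2 h
    rcases min_val h with h | h
    · exact Or.inl (hd _ _ _ _ h1 h2 h)
    · exact Or.inr (hd _ _ _ _ h1 h2.symm h)
  · intro a b x y h1 h2 h
    rcases min_val h with h | h
    · exact Or.inl (hd _ _ _ _ h1 h2 (by linear_combination h))
    · exact hs _ _ _ _ h1 h2 (by linear_combination h)
  · intro a b h1 h
    rcases min_val h with h | h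
    · exact h1.ne (by linear_combination h)
    · rcases h1 with h1 | h1
      · exact S0 _ h1 (by simp only; linear_combination -h)
      · exact S0 _ h1 (by simp only; linear_combination -h)

theorem Good.perfect {g : ℕ} {c : ℤ} {L : List (ℤ × ℤ)} (h : Good g c L) : Perfect g := by
  haveI : NeZero g := ⟨by have := h.len; omega⟩
  refine perfect_of_list (c : ZMod g) (L.map (fun p => ((p.1 : ZMod g), (p.2 : ZMod g)))) ?_ ?_ ?_ ?_
  · simpa using h.len
  · simpa [Function.comp_def] using h.el.nodup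
  · simpa [Function.comp_def] using h.df.nodup
  · simpa [Function.comp_def] using h.sm.nodup

/-- direct check -/
def goodB (g : ℕ) (c : ℤ) (L : List (ℤ × ℤ)) : Bool :=
  decide (2 * L.length + 1 = g) &&
  incB g (c :: (L.map (fun p => p.1) ++ L.map (fun p => p.2))) &&
  incB g (L.map (fun p => p.1 - p.2) ++ L.map (fun p => p.2 - p.1)) &&
  incB g ((c + c) :: L.map (fun p => p.1 + p.2))

theorem goodB_sound {g : ℕ} {c : ℤ} {L : List (ℤ × ℤ)} (h : goodB g c L = true) : Perfect g := by
  simp only [goodB, Bool.and_eq_true, decide_eq_true_eq] at h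
  obtain ⟨⟨⟨h1, h2⟩, h3⟩, h4⟩ := h
  exact Good.perfect ⟨h1, incB_sound h2, incB_sound h3, incB_sound h4⟩

/-- the pairs `(x + i p, y + i q)`, `0 ≤ i < n` -/
structure Seg where
  x : Lin
  p : ℤ
  y : Lin
  q : ℤ
  n : Lin

def Seg.list (t : ℤ) (S : Seg) : List (ℤ × ℤ) :=
  (List.range (S.n.ev t).toNat).map (fun i : ℕ => (S.x.ev t + (i : ℤ) * S.p, S.y.ev t + (i : ℤ) * S.q))

def Seg.xs (S : Seg) : AP := ⟨S.x, S.p, S.n⟩
def Seg.ys (S : Seg) : AP := ⟨S.y, S.q, S.n⟩
def Seg.d1 (S : Seg) : AP := ⟨S.x.sub S.y, S.p - S.q, S.n⟩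
def Seg.d2 (S : Seg) : AP := ⟨S.y.sub S.x, S.q - S.p, S.n⟩
def Seg.sm (S : Seg) : AP := ⟨S.x.add S.y, S.p + S.q, S.n⟩
def pt (c : Lin) : AP := ⟨c, 0, ⟨0, 1⟩⟩

theorem pt_list (c : Lin) (t : ℤ) : (pt c).list t = [c.ev t] := by
  simp [pt, AP.list, Lin.ev]

def total : List Seg → Lin
  | [] => ⟨0, 0⟩
  | S :: l => S.n.add (total l)

theorem length_flat {t : ℤ} (ht : 0 ≤ t) : ∀ (l : List Seg), l.all (fun S => S.n.nonneg) = true →
    ((l.flatMap (Seg.list t)).length : ℤ) = (total l).ev t
  | [], _ => by simp [total, Lin.ev]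
  | S :: l, h => by
    simp only [List.all_cons, Bool.and_eq_true] at h
    have h0 := Lin.nonneg_sound h.1 ht
    have ih := length_flat ht l h.2
    simp only [List.flatMap_cons, List.length_append, total, Lin.ev_add]
    push_cast
    rw [ih]
    simp [Seg.list, Int.toNat_of_nonneg h0, h0]

def famB (G c : Lin) (l : List Seg) : Bool :=
  l.all (fun S => S.n.nonneg) &&
  (decide (2 * (total l).a = G.a) && decide (2 * (total l).b + 1 = G.b)) &&
  famOk G (pt c :: (l.map Seg.xs ++ l.map Seg.ys)) &&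
  famOk G (l.map Seg.d1 ++ l.map Seg.d2) &&
  famOk G (pt (c.add c) :: l.map Seg.sm)

theorem flat_map (t : ℤ) (l : List Seg) (f : ℤ × ℤ → ℤ) (F : Seg → AP)
    (h : ∀ S : Seg, (S.list t).map f = (F S).list t) :
    (l.flatMap (Seg.list t)).map f = (l.map F).flatMap (AP.list t) := by
  rw [List.map_flatMap, List.flatMap_map]
  simp only [h]

theorem famB_sound {G c : Lin} {l : List Seg} (h : famB G c l = true) {t : ℤ} (ht : 0 ≤ t)
    {g : ℕ} (hg : (g : ℤ) = G.ev t) : Perfect g := by
  simp only [famB, Bool.and_eq_true, decide_eq_true_eq] at h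
  obtain ⟨⟨⟨⟨h0, h1, h1'⟩, h2⟩, h3⟩, h4⟩ := h
  have k2 := famOk_sound ht h2
  have k3 := famOk_sound ht h3
  have k4 := famOk_sound ht h4
  rw [← hg] at k2 k3 k4
  have hl := length_flat ht l h0
  refine Good.perfect (c := c.ev t) (L := l.flatMap (Seg.list t)) ⟨?_, ?_, ?_, ?_⟩
  · have : (2 * (l.flatMap (Seg.list t)).length + 1 : ℤ) = g := by
      rw [hl, hg]
      simp only [Lin.ev]
      rw [← h1, ← h1']; ring
    exact_mod_cast this
  · rw [flat_map t l _ Seg.xs, flat_map t l _ Seg.ys]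
    · simpa [pt_list, List.flatMap_append] using k2
    · intro S; simp [Seg.list, Seg.ys, AP.list, Function.comp_def]
    · intro S; simp [Seg.list, Seg.xs, AP.list, Function.comp_def]
  · rw [flat_map t l _ Seg.d1, flat_map t l _ Seg.d2]
    · simpa [List.flatMap_append] using k3
    · intro S
      simp only [Seg.list, Seg.d2, AP.list, List.map_map, Function.comp_def, Lin.ev_sub]
      apply List.map_congr_left; intro i _; ring
    · intro S
      simp only [Seg.list, Seg.d1, AP.list, List.map_map, Function.comp_def, Lin.ev_sub]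
      apply List.map_congr_left; intro i _; ring
  · rw [flat_map t l _ Seg.sm]
    · simpa [pt_list] using k4
    · intro S
      simp only [Seg.list, Seg.sm, AP.list, List.map_map, Function.comp_def, Lin.ev_add]
      apply List.map_congr_left; intro i _; ring

end Pool.Agent.MP_343cc6_co
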